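import Mathlib
set_option autoImplicit false

/-!
The real number `cos(2π/N)` and roots of unity of order divisible by `N`.
-/

namespace Pool.Agent.Helper537_Cos

open Polynomial IntermediateField

theorem pow_mem {S : IntermediateField ℚ ℂ} {ζ : ℂ} (h0 : ζ ≠ 0) (h : ζ + ζ⁻¹ ∈ S) (k : ℕ) :
    ζ ^ k + ζ⁻¹ ^ k ∈ S ∧ ζ ^ (k + 1) + ζ⁻¹ ^ (k + 1) ∈ S := by
  induction k with
  | zero =>
    refine ⟨?_, by simpa using h⟩
    have h1 : ζ ^ 0 + ζ⁻¹ ^ 0 = ((2 : ℕ) : ℂ) := by norm_num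
    rw [h1]
    exact _root_.natCast_mem S 2
  | succ k ih =>
    refine ⟨ih.2, ?_⟩
    have h1 : ζ * ζ⁻¹ = 1 := mul_inv_cancel₀ h0
    have h2 : ζ ^ (k + 1 + 1) + ζ⁻¹ ^ (k + 1 + 1) =
        (ζ + ζ⁻¹) * (ζ ^ (k + 1) + ζ⁻¹ ^ (k + 1)) - (ζ ^ k + ζ⁻¹ ^ k) := by
      linear_combination (-(ζ ^ k) - ζ⁻¹ ^ k) * h1
    rw [h2]
    exact S.sub_mem (S.mul_mem h ih.2) ih.1

theorem cos_eq (N : ℕ) : Complex.cos (2 * Real.pi / N) =
    (Complex.exp (2 * Real.pi * Complex.I / N) +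
      (Complex.exp (2 * Real.pi * Complex.I / N))⁻¹) / 2 := by
  rw [Complex.cos, ← Complex.exp_neg]
  congr 2
  · congr 1
    ring
  · congr 1
    ring

theorem cos_mem {n N : ℕ} (hn : n ≠ 0) (hd : N ∣ n) {ζ : ℂ} (hζ : IsPrimitiveRoot ζ n)
    {S : IntermediateField ℚ ℂ} (h : ζ + ζ⁻¹ ∈ S) : Complex.cos (2 * Real.pi / N) ∈ S := by
  have hN : N ≠ 0 := by
    rintro rfl
    exact hn (Nat.eq_zero_of_zero_dvd hd)
  have h1 := Complex.isPrimitiveRoot_exp N hN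
  have h2 : Complex.exp (2 * Real.pi * Complex.I / N) ^ n = 1 := by
    obtain ⟨c, rfl⟩ := hd
    rw [pow_mul, h1.pow_eq_one, one_pow]
  have : NeZero n := ⟨hn⟩
  obtain ⟨i, _, hi⟩ := hζ.eq_pow_of_pow_eq_one h2
  rw [cos_eq, ← hi, ← inv_pow]
  have h3 := (pow_mem (hζ.ne_zero hn) h i).1
  have h4 : ((2 : ℕ) : ℂ) ∈ S := _root_.natCast_mem S 2
  have h5 := S.div_mem h3 h4
  exact_mod_cast h5

theorem cos_not_mem {N q : ℕ} (hN : N ≠ 0) (hq : q.Prime) (hq5 : 5 ≤ q) (hd : q ∣ N) (c : ℚ) :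
    Complex.cos (2 * Real.pi / N) ∉ ℚ⟮(c : ℂ)⟯ := by
  intro h
  have hbot : ℚ⟮(c : ℂ)⟯ = ⊥ := by
    rw [IntermediateField.adjoin_simple_eq_bot_iff]
    exact IntermediateField.algebraMap_mem ⊥ c
  rw [hbot, IntermediateField.mem_bot] at h
  obtain ⟨r, hr⟩ := h
  have h1 := Complex.isPrimitiveRoot_exp N hN
  set e := Complex.exp (2 * Real.pi * Complex.I / N) with he
  have h0 : e ≠ 0 := h1.ne_zero hN
  rw [cos_eq, ← he] at hr
  have h2 : aeval e (X ^ 2 - C (2 * r) * X + 1 : ℚ[X]) = 0 := by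
    rw [map_add, map_sub, map_pow, map_mul, aeval_X, aeval_C, map_one, map_mul]
    have h3 : (algebraMap ℚ ℂ) 2 = 2 := map_ofNat _ 2
    rw [h3, hr]
    field_simp
    ring
  have h4 : cyclotomic N ℚ ∣ (X ^ 2 - C (2 * r) * X + 1 : ℚ[X]) := by
    rw [cyclotomic_eq_minpoly_rat h1 (Nat.pos_of_ne_zero hN)]
    exact minpoly.dvd ℚ e h2
  have hdeg : (X ^ 2 - C (2 * r) * X + 1 : ℚ[X]).natDegree = 2 := by
    compute_degree!
  have hne : (X ^ 2 - C (2 * r) * X + 1 : ℚ[X]) ≠ 0 := by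
    intro h5
    rw [h5, natDegree_zero] at hdeg
    omega
  have h5 := natDegree_le_of_dvd h4 hne
  rw [natDegree_cyclotomic, hdeg] at h5
  have h6 : q.totient ∣ N.totient := Nat.totient_dvd_of_dvd hd
  rw [Nat.totient_prime hq] at h6
  have h7 := Nat.le_of_dvd (Nat.totient_pos.2 (Nat.pos_of_ne_zero hN)) h6
  omega

end Pool.Agent.Helper537_Cos
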