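import Pool.Agent.Helper537_All.Degree
set_option autoImplicit false

/-!
The degree of the solutions of `lam ∏ (x - b_i) = ζ + ζ⁻¹ - t`, where `ζ` is a root of unity whose
order is not divisible by a prime `q ≥ 5` with `v_q(lam)` prime to the degree.
-/

namespace Pool.Agent.Helper537_Cos

open scoped WithZero
open Polynomial IntermediateField
open Pool.Agent.Helper537_All

theorem exists_good_val1 {m : ℕ} [NeZero m] {ζ : ℂ} (hζ : IsPrimitiveRoot ζ m) {N : ℕ}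
    (hN1 : N ≠ 1) {lam t : ℤ} (hl : lam ≠ 0) (ht : |t| ≤ 2) {q : ℕ}
    (hq : q.Prime) (hq5 : 5 ≤ q) (hqm : ¬ q ∣ m)
    (hcq : (padicValInt q lam).Coprime N) (hs : ζ + ζ⁻¹ - t ≠ 0) :
    ∃ v : Valuation ℚ⟮ζ⟯ ℤᵐ⁰, (∀ n : ℤ, v (n : ℚ⟮ζ⟯) ≤ 1) ∧
      v (AdjoinSimple.gen ℚ ζ + (AdjoinSimple.gen ℚ ζ)⁻¹ - t) = 1 ∧ v (lam : ℚ⟮ζ⟯) < 1 ∧
      IsCoprime (N : ℤ) (WithZero.log (v (lam : ℚ⟮ζ⟯))) := by
  have hcyc := adjoin_cyc hζ
  have hnf : NumberField ℚ⟮ζ⟯ := IsCyclotomicExtension.numberField {m} ℚ ℚ⟮ζ⟯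
  have hm : m ≠ 0 := NeZero.ne m
  set z := AdjoinSimple.gen ℚ ζ with hz
  have hzp : IsPrimitiveRoot z m := by
    rw [← IsPrimitiveRoot.coe_submonoidClass_iff]
    exact hζ
  have hzm : z ^ m = 1 := hzp.pow_eq_one
  have hs' : z + z⁻¹ - t ≠ 0 := by
    intro h
    apply hs
    have h1 := congrArg (algebraMap ℚ⟮ζ⟯ ℂ) h
    rw [map_sub, map_add, map_inv₀, map_intCast, map_zero] at h1
    exact h1
  have : Fact q.Prime := ⟨hq⟩
  obtain ⟨v, hv, e, hvp, he, he1, he2⟩ := exists_val_cyc m q ℚ⟮ζ⟯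
  have hvi : ∀ n : ℤ, v (n : ℚ⟮ζ⟯) ≤ 1 := fun n => hv _ (by
    have := isIntegral_algebraMap (R := ℤ) (A := ℚ⟮ζ⟯) (x := n)
    rwa [algebraMap_int_eq, eq_intCast] at this)
  have hvp1 : v (q : ℚ⟮ζ⟯) < 1 := by
    rw [hvp, ← WithZero.exp_zero, WithZero.exp_lt_exp]
    omega
  obtain ⟨hlog, hne⟩ := log_val hq he hvp hvi hl
  have hz1 := v_root (v := v) hm hzm
  have hsle : v (z + z⁻¹ - t) ≤ 1 := by
    refine (v.map_sub _ _).trans (max_le ((v.map_add _ _).trans (max_le hz1.le ?_)) (hvi t))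
    rw [map_inv₀, hz1, inv_one]
  have hcc : (e * padicValInt q lam).Coprime N := by
    rw [he1 hqm, one_mul]
    exact hcq
  have hpos : 0 < e * padicValInt q lam := by
    refine Nat.pos_of_ne_zero fun h0 => ?_
    rw [h0, Nat.coprime_zero_left] at hcc
    exact hN1 hcc
  have hs1 : v (z + z⁻¹ - t) = 1 := by
    by_contra hne
    have hlt := lt_of_le_of_ne hsle hne
    obtain ⟨c, hc⟩ := unit_cond hq hvp1 hvi hm hzm ht hlt
    have h3 : m ∣ n0 t * q ^ c := hzp.dvd_of_pow_eq_one _ hc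
    have h4 : m ∣ n0 t := by
      refine (Nat.Coprime.dvd_mul_right ?_).1 h3
      refine Nat.Coprime.pow_right _ ?_
      exact ((Nat.Prime.coprime_iff_not_dvd hq).2 hqm).symm
    have h5 : z ^ n0 t = 1 := (hzp.pow_eq_one_iff_dvd _).2 h4
    obtain ⟨s, hs4, hse⟩ := s_int ht h5
    have hs0 : s ≠ 0 := by
      rintro rfl
      rw [Int.cast_zero] at hse
      exact hs' hse
    have h6 : ¬ (q : ℤ) ∣ s := by
      intro h
      have h7 := Int.le_of_dvd (abs_pos.2 hs0) ((dvd_abs _ _).2 h)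
      have h8 : (5 : ℤ) ≤ q := by exact_mod_cast hq5
      omega
    have h7 := v_int_one hq hvp1 hvi h6
    rw [← hse] at h7
    exact hne h7
  refine ⟨v, hvi, hs1, ?_, ?_⟩
  · rw [← WithZero.exp_log hne, hlog, ← WithZero.exp_zero, WithZero.exp_lt_exp]
    omega
  · rw [hlog]
    refine IsCoprime.neg_right ?_
    rw [Nat.isCoprime_iff_coprime]
    exact hcc.symm

theorem deg_dvd1 {m : ℕ} [NeZero m] {ζ : ℂ} (hζ : IsPrimitiveRoot ζ m) {N : ℕ}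
    {lam t : ℤ} (hl : lam ≠ 0) (ht : |t| ≤ 2) {q : ℕ}
    (hq : q.Prime) (hq5 : 5 ≤ q) (hqm : ¬ q ∣ m)
    (hcq : (padicValInt q lam).Coprime N) (hs : ζ + ζ⁻¹ - t ≠ 0) {b : Fin N → ℤ} {α : ℂ}
    (hα : IsIntegral ℚ α) (h : (lam : ℂ) * ∏ i, (α - b i) = ζ + ζ⁻¹ - t) :
    N ∣ (minpoly ℚ⟮ζ + ζ⁻¹⟯ α).natDegree := by
  by_cases hN1 : N = 1
  · rw [hN1]
    exact one_dvd _
  obtain ⟨v, hvi, hv1, hvl, hco⟩ := exists_good_val1 hζ hN1 hl ht hq hq5 hqm hcq hs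
  have hle : ℚ⟮ζ + ζ⁻¹⟯ ≤ ℚ⟮ζ⟯ := by
    rw [IntermediateField.adjoin_simple_le_iff]
    have hz : ζ ∈ ℚ⟮ζ⟯ := mem_adjoin_simple_self ℚ ζ
    exact add_mem hz (inv_mem hz)
  set i : ℚ⟮ζ + ζ⁻¹⟯ →+* ℚ⟮ζ⟯ := (IntermediateField.inclusion hle).toRingHom with hi
  set s : ℚ⟮ζ + ζ⁻¹⟯ := AdjoinSimple.gen ℚ (ζ + ζ⁻¹) - t with hsdef
  have hsi : i s = AdjoinSimple.gen ℚ ζ + (AdjoinSimple.gen ℚ ζ)⁻¹ - t := by
    rw [hsdef, map_sub, map_intCast]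
    congr 1
  have hdvd := newton (v.comap i) (hα.tower_top (A := ℚ⟮ζ + ζ⁻¹⟯)) (N := N)
    (lam := (lam : ℚ⟮ζ + ζ⁻¹⟯)) (s := s) (b := fun j => (b j : ℚ⟮ζ + ζ⁻¹⟯))
    (fun j => by rw [Valuation.comap_apply, map_intCast]; exact hvi _)
    (by rw [Valuation.comap_apply, hsi]; exact hv1)
    (by rw [Valuation.comap_apply, map_intCast]; exact hvl)
    (Int.cast_ne_zero.2 hl)
    (by
      rw [map_intCast, hsdef, map_sub, map_intCast, AdjoinSimple.algebraMap_gen]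
      simp only [map_intCast]
      exact h)
  rw [Valuation.comap_apply, map_intCast] at hdvd
  have h3 := hco.dvd_of_dvd_mul_right hdvd
  exact_mod_cast h3

end Pool.Agent.Helper537_Cos
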