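import Pool.Agent.Helper537_All.MainZ
set_option autoImplicit false

/-!
The classes which are unramified at the closed points of the curve over `ℚ`.
-/

namespace Pool.Agent.Helper537_Cos

open scoped WithZero
open Polynomial
open Pool.Agent.TH826.MK (KQ symb unitPart Unramified Torus)
open Pool.Agent.TH826.HD
open Pool.Agent.Helper537_Sym
open Pool.Agent.Helper537_All

/-- The classes whose tame symbols vanish at all discrete valuations of `L` which are trivial on
`ℚ`. If `L` is the function field of a smooth projective curve `X` over `ℚ` these valuations are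
the closed points of `X`, and this is the image of `K_2(X) ⊗ ℚ` in `K_2(L) ⊗ ℚ`. -/
noncomputable def HUnr (L : Type*) [Field L] : Submodule ℚ (KQ L 2) :=
  ⨅ (v : Valuation L ℤᵐ⁰) (_ : Function.Surjective v ∧ ∀ n : ℕ, n ≠ 0 → v (n : L) = 1),
    unitPart v 2

section

variable {L : Type*} [Field L]

theorem unr_le_hor : Unramified L 2 ≤ HUnr L := by
  intro s hs
  unfold Unramified at hs
  unfold HUnr
  rw [Submodule.mem_iInf] at hs ⊢
  intro v
  rw [Submodule.mem_iInf]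
  intro hv
  have h3 := hs v
  rw [Submodule.mem_iInf] at h3
  exact h3 hv.1

theorem tame_hor {v : Valuation L ℤᵐ⁰} (hv : Function.Surjective v) (f : ℚ →+* L)
    (hq : ∀ q : ℚ, q ≠ 0 → v (f q) = 1) (l : Lg L)
    (hl : ∀ a : Lˣ, v ((a : L) - 1) < 1 → l.toFun a = 0) {s : KQ L 2}
    (hu : s ∈ HUnr L) : tame v l hl s = 0 := by
  unfold HUnr at hu
  rw [Submodule.mem_iInf] at hu
  have h3 := hu v
  rw [Submodule.mem_iInf] at h3
  refine tame_unitPart v l hl (h3 ⟨hv, fun n hn => ?_⟩)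
  have h4 := hq (n : ℚ) (Nat.cast_ne_zero.2 hn)
  rwa [map_natCast] at h4

end

section md

variable {L : Type*} [Field L] {e : ℚ[X] →+* L} {d : ℕ}

theorem md_hor (he : Function.Injective e)
    (hval : ∀ π : ℚ[X], π.Monic → Irreducible π → ∃ v : Valuation L ℤᵐ⁰,
      Function.Surjective v ∧ (∀ q : ℚ, q ≠ 0 → v (ec e q) = 1) ∧ v (e π) < 1) (d : ℕ) :
    ∀ s : KQ L 2, s ∈ Md e d → s ∈ HUnr L → s = 0 := by
  induction d with
  | zero =>
    intro s hs _
    rwa [md_zero, Submodule.mem_bot] at hs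
  | succ d ih =>
    intro s hs hu
    rcases Nat.eq_zero_or_pos d with h0 | hd0
    · subst h0
      rwa [md_one he, Submodule.mem_bot] at hs
    refine ih s ?_ hu
    obtain ⟨μ, hμ, ν, hν, hμν⟩ := Submodule.mem_sup.1 (md_succ_le he hd0 hs)
    obtain ⟨x, hx⟩ := Finsupp.mem_span_range_iff_exists_finsupp.1 hν
    suffices h : ν ∈ Md e d by
      rw [← hμν]
      exact Submodule.add_mem _ hμ h
    rw [← Submodule.Quotient.mk_eq_zero, ← Submodule.mkQ_apply, ← hx, Finsupp.sum, map_sum]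
    have e1 : (∑ p ∈ x.support, (Md e d).mkQ (x p • Hc e p.1 p.2)) =
        x.sum fun p c => c • (Md e d).mkQ (Hc e p.1 p.2) := by
      rw [Finsupp.sum]
      refine Finset.sum_congr rfl fun p _ => ?_
      rw [map_smul]
    rw [e1, Finsupp.sigma_sum]
    refine Finset.sum_eq_zero fun π _ => ?_
    refine sum_eq_zero_of_dual (fun u => (Md e d).mkQ (Hc e π u)) (fun a b => hc_mul he π a b)
      _ fun χ hχ => ?_
    obtain ⟨v, hvs, hv, hvπ⟩ := hval π.1 π.2.1 π.2.2.1
    obtain ⟨l, hl, hlu⟩ := exists_lg_pi he π hv hvπ χ hχ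
    have h1 := tame_hor hvs (ec e) hv l hl hu
    rw [← hμν, map_add, tame_md he π hv hvπ l hl hμ, zero_add, ← hx, Finsupp.sum, map_sum] at h1
    have e2 : ∀ p : Σ π : Ir d, (AdjoinRoot π.1)ˣ, tame v l hl (x p • Hc e p.1 p.2) =
        -(ord v (pu e p.1.1) : ℚ) * (x p * l.toFun (pu e (rep p.1 p.2))) := by
      intro p
      unfold Hc
      rw [map_smul, tame_sy, ord_pu_zero he π hv hvπ (rep_ne p.1 p.2)
        (not_dvd_of_lt π (rep_ne p.1 p.2) (rep_lt p.1 p.2)), smul_eq_mul, Int.cast_zero, zero_mul,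
        zero_sub]
      ring
    rw [Finset.sum_congr rfl fun p _ => e2 p] at h1
    have e3 : (∑ p ∈ x.support, -(ord v (pu e p.1.1) : ℚ) *
        (x p * l.toFun (pu e (rep p.1 p.2)))) = x.sum fun p c =>
        -(ord v (pu e p.1.1) : ℚ) * (c * l.toFun (pu e (rep p.1 p.2))) := rfl
    rw [e3, Finsupp.sigma_sum] at h1
    have e4 : ∀ π' : Ir d, π' ≠ π → ((x.split π').sum fun u c =>
        -(ord v (pu e π'.1) : ℚ) * (c * l.toFun (pu e (rep π' u)))) = 0 := by
      intro π' hne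
      have h2 : ord v (pu e π'.1) = 0 := by
        refine ord_pu_zero he π hv hvπ π'.2.1.ne_zero fun hd => hne ?_
        have h3 := (π.2.2.1.associated_of_dvd π'.2.2.1 hd)
        exact (Subtype.ext (eq_of_monic_of_associated π.2.1 π'.2.1 h3)).symm
      rw [h2, Finsupp.sum]
      refine Finset.sum_eq_zero fun u _ => ?_
      rw [Int.cast_zero, neg_zero, zero_mul]
    have hord : (ord v (pu e π.1) : ℚ) ≠ 0 := by
      intro h2
      have h3 := ord_eq_zero (v := v) (a := pu e π.1) (by exact_mod_cast h2)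
      rw [pu_val he π.2.1.ne_zero] at h3
      exact hvπ.ne h3
    by_cases hsup : π ∈ x.splitSupport
    · rw [Finset.sum_eq_single_of_mem π hsup (fun π' _ hne => e4 π' hne)] at h1
      have h2 : -(ord v (pu e π.1) : ℚ) * ((x.split π).sum fun u c => c * χ u) = 0 := by
        rw [← h1, Finsupp.sum, Finsupp.sum, Finset.mul_sum]
        refine Finset.sum_congr rfl fun u _ => ?_
        rw [hlu]
      exact (mul_eq_zero.1 h2).resolve_left (neg_ne_zero.2 hord)
    · have h2 : x.split π = 0 := by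
        by_contra h3
        exact hsup ((x.mem_splitSupport_iff_nonzero π).2 h3)
      rw [h2, Finsupp.sum_zero_index]

end md

section f1

variable {L : Type*} [Field L] {ι : Type*}

/-- An unramified combination of symbols with a constant entry vanishes. -/
theorem f1_inf_hor (f : ℚ →+* L) (y : ι → Lˣ)
    (hy : ∀ c : ι →₀ ℚ, (∀ v : Valuation L ℤᵐ⁰, Function.Surjective v →
      (∀ q : ℚˣ, v (f q) = 1) → (c.sum fun j a => a * (ord v (y j) : ℚ)) = 0) → c = 0)
    {s : KQ L 2} (hs : s ∈ F1 f y) (hu : s ∈ HUnr L) : s = 0 := by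
  obtain ⟨c, rfl⟩ := hs
  have h1 : ∀ p : Nat.Primes, c.mapRange (fun x : Nat.Primes →₀ ℚ => x p) rfl = 0 := by
    intro p
    apply hy
    intro v hv hq
    obtain ⟨l, hl, hlq⟩ := exists_lg v f hq (chi p) (chi_mul p)
    rw [Finsupp.sum_mapRange_index (by intro j; rw [zero_mul]),
      ← tame_theta f y c v hq l hl p hlq]
    exact tame_hor hv f (fun q hq0 => hq (Units.mk0 q hq0)) l hl hu
  have h2 : c = 0 := by
    ext j p
    have h3 := DFunLike.congr_fun (h1 p) j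
    rw [Finsupp.mapRange_apply] at h3
    exact h3
  rw [h2, map_zero]

end f1

section alg

variable {F : ℚ[X]} {L : Type*} [Field L] [Algebra (PRing F) L] [IsFractionRing (PRing F) L]

/-- The unramified part of the symbols with entry `z`. -/
theorem z_part_hor {g : ℕ} {b : Fin (g + 1) → ℚ} (hE : Ez F L b ≤ HUnr L)
    (hinf : ∃ v : Valuation L ℤᵐ⁰, Function.Surjective v ∧
      (∀ q : ℚ, q ≠ 0 → v (ec (eP F L) q) = 1) ∧ ord v (zF F L) ≠ 0)
    {s : KQ L 2} (hs : s ∈ Fz F L ⊔ (Nb F L ⊔ Ez F L b)) (hu : s ∈ HUnr L) :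
    s ∈ Ez F L b := by
  obtain ⟨s₁, h3, s', h4, h5⟩ := Submodule.mem_sup.1 hs
  obtain ⟨s₂, h6, s₃, h7, h8⟩ := Submodule.mem_sup.1 h4
  obtain ⟨a, ha⟩ := Finsupp.mem_span_range_iff_exists_finsupp.1 h6
  have ha0 : a = 0 := by
    ext c
    obtain ⟨v, l, hv, hq, hl, hlz, hz, hc, hd⟩ := exists_lg_tb c
    have e1 := tame_hor hv (ec (eP F L)) hq l hl hu
    rw [← h5, ← h8, map_add, map_add,
      tame_f1z (fun q : ℚˣ => hq q q.ne_zero) l hl (fun _ => hz) h3,
      tame_hor hv (ec (eP F L)) hq l hl (hE h7), zero_add, add_zero, ← ha, Finsupp.sum, map_sum] at e1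
    have e2 : ∀ d : TB F L, tame v l hl (a d • sy (zF F L) (pu (eP F L) d.1)) =
        a d * ord v (pu (eP F L) d.1) := by
      intro d
      rw [map_smul, tame_sy, hlz, hz]
      simp
    rw [Finset.sum_congr rfl fun d _ => e2 d] at e1
    by_cases hcs : c ∈ a.support
    · rw [Finset.sum_eq_single_of_mem c hcs] at e1
      · exact (mul_eq_zero.1 e1).resolve_right (Int.cast_ne_zero.2 hc)
      · intro d _ hdc
        rw [hd d hdc, Int.cast_zero, mul_zero]
    · exact Finsupp.notMem_support_iff.1 hcs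
  have hs2 : s₂ = 0 := by rw [← ha, ha0, Finsupp.sum_zero_index]
  rw [hs2, zero_add] at h8
  have h9 : s₁ ∈ HUnr L := by
    have e : s₁ = s - s₃ := by rw [← h5, h8]; abel
    rw [e]
    exact Submodule.sub_mem _ hu (hE h7)
  have h10 : s₁ = 0 := by
    refine f1_inf_hor (ec (eP F L)) (fun _ : Unit => zF F L) (fun c hc => ?_) h3 h9
    obtain ⟨v, hv, hq, ho⟩ := hinf
    have h11 := hc v hv fun q => hq q q.ne_zero
    by_contra hne
    obtain ⟨j, hj⟩ := Finsupp.support_nonempty_iff.2 hne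
    rw [Finsupp.sum, Finset.sum_eq_single_of_mem j hj (fun k _ hk => absurd rfl hk)] at h11
    rcases mul_eq_zero.1 h11 with h12 | h12
    · exact Finsupp.mem_support_iff.1 hj h12
    · exact ho (by exact_mod_cast h12)
  rw [← h5, h10, zero_add, ← h8]
  exact h7

theorem sig_hor {s : KQ L 2} (hs : s ∈ HUnr L) : KQ.map 2 (sig F L) s ∈ HUnr L := by
  unfold HUnr at hs ⊢
  rw [Submodule.mem_iInf]
  intro v
  rw [Submodule.mem_iInf]
  rintro ⟨hv, hn⟩
  have h1 : Function.Surjective (v.comap (sig F L)) := by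
    intro a
    obtain ⟨y, hy⟩ := hv a
    refine ⟨sig F L y, ?_⟩
    rw [Valuation.comap_apply, sig_sig, hy]
  rw [Submodule.mem_iInf] at hs
  have h2 := hs (v.comap (sig F L))
  rw [Submodule.mem_iInf] at h2
  have h3 := h2 ⟨h1, fun n hn0 => by rw [Valuation.comap_apply, map_natCast]; exact hn n hn0⟩
  have h4 : unitPart (v.comap (sig F L)) 2 ≤ (unitPart v 2).comap (KQ.map 2 (sig F L)) := by
    conv_lhs => unfold unitPart
    rw [Submodule.span_le]
    rintro _ ⟨a, ha, rfl⟩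
    show KQ.map 2 (sig F L) (symb a) ∈ unitPart v 2
    rw [KQ.map_symb]
    exact Submodule.subset_span ⟨fun i => Units.map (sig F L : L →* L) (a i), fun i => ha i, rfl⟩
  exact h4 h3

/-- The involution acts by `-1` on the classes which are unramified at the closed points. -/
theorem hor_sig {κ : KQ L 2} (h : κ ∈ HUnr L) : KQ.map 2 (sig F L) κ = -κ := by
  have h1 := all_mem_Mb (F := F) κ
  rw [mem_Mb] at h1
  have h2 : κ + KQ.map 2 (sig F L) κ ∈ HUnr L :=
    Submodule.add_mem _ h (sig_hor (F := F) h)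
  obtain ⟨d, hd⟩ := bs_md h1
  have h3 := md_hor eP_inj (fun π => hval π) d _ hd h2
  exact (neg_eq_of_add_eq_zero_right h3).symm

theorem vz_hor {Q : ℚ[X] → Prop} {κ : KQ L 2} (h : κ ∈ VZ F L Q) (hu : κ ∈ HUnr L) :
    κ ∈ Zq F L Q := by
  have h1 := vz_sub h
  rw [hor_sig hu, sub_neg_eq_add] at h1
  have h2 := Submodule.smul_mem _ (2 : ℚ)⁻¹ h1
  rwa [← two_smul ℚ κ, smul_smul, inv_mul_cancel₀ two_ne_zero, one_smul] at h2

theorem clsZ_hor {g : ℕ} {b : Fin (g + 1) → ℚ} {Q : ℚ[X] → Prop}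
    (hE : Ez F L b ≤ HUnr L)
    (hinf : ∃ v : Valuation L ℤᵐ⁰, Function.Surjective v ∧
      (∀ q : ℚ, q ≠ 0 → v (ec (eP F L) q) = 1) ∧ ord v (zF F L) ≠ 0)
    (hQ1 : Q 1) (hQb : ∀ i, Q ((X - C (b i)) ^ 2))
    (hQ : ∀ P : ℚ[X], P ≠ 0 → Q P → ∀ π : ℚ[X], π.Monic → Irreducible π → π ∣ P →
      sy (zF F L) (pu (eP F L) π) ∈ Fz F L ⊔ (Nb F L ⊔ Ez F L b)) :
    VZ F L Q ⊓ HUnr L = Ez F L b := by
  refine le_antisymm ?_ (le_inf ?_ hE)
  · rintro s ⟨h1, h2⟩
    refine z_part_hor hE hinf ?_ h2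
    have h9 : Zq F L Q ≤ Fz F L ⊔ (Nb F L ⊔ Ez F L b) := by
      unfold Zq
      rw [Submodule.span_le]
      rintro _ ⟨P, hP, hQP, rfl⟩
      exact zpoly_mem le_sup_left _ P hP rfl (hQ P hP hQP)
    exact h9 (vz_hor h1 h2)
  · unfold Ez
    rw [Submodule.span_le]
    rintro _ ⟨k, rfl⟩
    have hb : ∀ i, sy (zF F L) (pu (eP F L) (X - C (b i))) ∈ VZ F L Q := by
      intro i
      refine (le_sup_left : _ ≤ VZ F L Q) (Submodule.subset_span ⟨_, ⟨(X - C (b i)) ^ 2, 1,
        one_ne_zero, hQb i, hQ1, ?_⟩, rfl⟩)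
      rw [pu_val eP_inj (X_sub_C_ne_zero _), sig_eP, map_one, map_one, div_one]
      show eP F L (X - C (b i)) * eP F L (X - C (b i)) = eP F L ((X - C (b i)) ^ 2)
      rw [map_pow, sq]
    exact Submodule.sub_mem _ (hb _) (hb _)

end alg

variable {g : ℕ} {F : ℚ[X]} {b : Fin (g + 1) → ℚ} {lam : ℚ} {t : ℤ}

theorem main1_hor (H : Fm b F lam t)
    (hFi : ∀ i, IsIntegral ℤ (F.coeff i)) (hbi : ∀ m, IsIntegral ℤ (b m))
    (ht : ∀ m, ∃ (ζ : ℂ) (k : ℕ), k ≠ 0 ∧ ζ ^ k = 1 ∧ emC (F.eval (b m)) = ζ + ζ⁻¹)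
    (L : Type*) [Field L] [Algebra (PRing F) L] [IsFractionRing (PRing F) L]
    {Q : ℚ[X] → Prop} (hQ1 : Q 1) (hQb : ∀ i, Q ((X - C (b i)) ^ 2))
    (hQ : ∀ P : ℚ[X], P ≠ 0 → Q P → ∀ π : ℚ[X], π.Monic → Irreducible π → π ∣ P →
      π ∉ TB F L → (∃ i, π = X - C (b i)) ∨ sy (zF F L) (pu (eP F L) π) ∈ Fz F L) :
    VZ F L Q ⊓ HUnr L = Ez F L b ∧ Ez F L b ≤ Unramified L 2 := by
  have hdeg : 0 < F.natDegree := by
    rw [H.natDegree]
    exact Nat.succ_pos g
  obtain ⟨f, hfa, hek⟩ := exists_f H L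
  have hE : ∀ k, ek f k ∈ Unramified L 2 := fun k =>
    Pool.Agent.TH826.UH.symb_mem_unramified f emC hFi hbi k.succ 0 ht
  have hEU : Ez F L b ≤ Unramified L 2 := by
    unfold Ez
    rw [Submodule.span_le]
    rintro _ ⟨k, rfl⟩
    have h1 := hE k
    rw [hek k] at h1
    exact h1
  refine ⟨clsZ_hor (hEU.trans unr_le_hor) (exists_inf hdeg) hQ1 hQb fun P hP hQP π hm hi hd => ?_,
    hEU⟩
  by_cases hπ : π ∈ TB F L
  · refine (le_sup_right : Nb F L ⊔ Ez F L b ≤ _) ((le_sup_left : Nb F L ≤ _) ?_)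
    exact Submodule.subset_span ⟨⟨π, hπ⟩, rfl⟩
  · rcases hQ P hP hQP π hm hi hd hπ with ⟨i, rfl⟩ | h
    · have h1 := zb_mem (F := F) (L := L) H i
      refine (sup_le le_sup_left ?_ : Fz F L ⊔ Ez F L b ≤ _) h1
      exact le_sup_right.trans (le_sup_right : Nb F L ⊔ Ez F L b ≤ _)
    · exact (le_sup_left : Fz F L ≤ _) h

end Pool.Agent.Helper537_Cos
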